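import Pool.Agent.Q191.RS.Moves

/-!
# Blocks: a long excursion, or a long excursion followed by a short one
-/

set_option autoImplicit false
set_option linter.unusedVariables false

namespace Pool.Agent.Q191.RS

variable {b A ε : ℝ} (h : Par b A ε) {x : ℕ → ℝ} (hx : Orb b A x)

/-- the section -/
def Sec (ε : ℝ) (x : ℕ → ℝ) (n : ℕ) : Prop :=
  -7 ≤ x n ∧ x n ≤ 1 ∧ |x (n + 1) + x (n + 2) - 63 / 10| ≤ ε

/-- length of the block -/
def len : Bool → ℕ
  | false => 16
  | true => 13

/-- left end of the interval -/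
noncomputable def lft : Bool → ℝ
  | false => 5147 / 1000
  | true => 5070 / 1000

/-- right end of the interval -/
noncomputable def rgt : Bool → ℝ
  | false => 5155 / 1000
  | true => 5083 / 1000

/-- slope of the block -/
noncomputable def slo : Bool → ℝ
  | false => 16
  | true => 8

/-- translation part of the block -/
noncomputable def cst : Bool → ℝ
  | false => 773 / 10
  | true => 355 / 10

/-- times of events in a block -/
def ev : Bool → ℕ → Prop
  | false, j => j = 0 ∨ j = 10 ∨ j = 13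
  | true, j => j = 0 ∨ j = 10

include h hx

theorem block (hε : 0 ≤ ε) (hε' : ε ≤ 1 / 1000000) (n : ℕ) (i : Bool) (hS : Sec ε x n)
    (h1 : lft i ≤ x (n + 1)) (h2 : x (n + 1) ≤ rgt i) :
    Sec ε x (n + len i) ∧
    (slo i * x (n + 1) - cst i - 1 / 1000 ≤ x (n + len i + 1) ∧
      x (n + len i + 1) ≤ slo i * x (n + 1) - cst i + 1 / 1000) ∧
    (∀ j, j < len i → |x (n + 1 + j)| ≤ 7) ∧
    (∀ j, j < len i → ev i j → |x (n + 1 + j) + x (n + 1 + j + 1) - 63 / 10| ≤ 1 / 100) ∧
    (∀ j, j < len i → ¬ ev i j → 3 / 100 ≤ |x (n + 1 + j) + x (n + 1 + j + 1) - 63 / 10|) := by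
  obtain ⟨hw1, hw2, hu⟩ := hS
  obtain ⟨hu1, hu2⟩ := abs_le.1 hu
  have hlr : 506 / 100 ≤ x (n + 1) ∧ x (n + 1) ≤ 516 / 100 := by
    cases i
    · simp only [lft, rgt] at h1 h2
      constructor <;> linarith
    · simp only [lft, rgt] at h1 h2
      constructor <;> linarith
  have v1 : 63 / 10 - x (n + 1) - ε ≤ x (n + 2) := by linarith only [hu1]
  have v2 : x (n + 2) ≤ 63 / 10 - x (n + 1) + ε := by linarith only [hu2]
  obtain ⟨⟨a3, b3⟩, ⟨a4, b4⟩, ⟨a5, b5⟩, ⟨a6, b6⟩, ⟨a7, b7⟩, ⟨a8, b8⟩, ⟨a9, b9⟩, ⟨a10, b10⟩, ⟨a11, b11⟩, ⟨a12, b12⟩, ⟨a13, b13⟩, ⟨a14, b14⟩, ⟨a15, b15⟩, ⟨c1, c2⟩⟩ :=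
    moveP h hx hε hε' n hw2 (by linarith only [hlr.1]) (by linarith only [hlr.2]) v1 v2
  cases i
  · simp only [lft, rgt] at h1 h2
    obtain ⟨⟨a16, b16⟩, ⟨a17, b17⟩, ⟨a18, b18⟩, ⟨d1, d2⟩⟩ := moveQ h hx hε hε' (n + 13)
      (by show x (n + 13) ≤ 1; linarith only [a13, b13, h1, h2, hε, hε'])
      (by show _ ≤ x (n + 14); linarith only [a14, h1, hε, hε'])
      (by show x (n + 14) ≤ _; linarith only [b14, h2, hε, hε'])
      c1 c2
    have a16 : -1 * x (n + 14) + 1 - 1 * ε ≤ x (n + 16) := a16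
    have b16 : x (n + 16) ≤ -1 * x (n + 14) + 1 + 1 * ε := b16
    have a17 : 2 * x (n + 14) - 63 / 10 - 2 * ε ≤ x (n + 17) := a17
    have b17 : x (n + 17) ≤ 2 * x (n + 14) - 63 / 10 + 2 * ε := b17
    have d1 : 63 / 10 - x (n + 17) - ε ≤ x (n + 18) := d1
    have d2 : x (n + 18) ≤ 63 / 10 - x (n + 17) + ε := d2
    refine ⟨⟨?_, ?_, ?_⟩, ⟨?_, ?_⟩, ?_, ?_, ?_⟩
    · show -7 ≤ x (n + 16)
      linarith only [a16, b16, a14, b14, h1, h2, hε, hε']
    · show x (n + 16) ≤ 1
      linarith only [a16, b16, a14, b14, h1, h2, hε, hε']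
    · show |x (n + 17) + x (n + 18) - 63 / 10| ≤ ε
      exact abs_le.2 ⟨by linarith only [d1], by linarith only [d2]⟩
    · show 16 * x (n + 1) - 773 / 10 - 1 / 1000 ≤ x (n + 17)
      linarith only [a17, a14, hε, hε']
    · show x (n + 17) ≤ 16 * x (n + 1) - 773 / 10 + 1 / 1000
      linarith only [b17, b14, hε, hε']
    · intro j hj
      rw [show len false = 16 from rfl] at hj
      interval_cases j
      · exact abs_le.2 ⟨by show -7 ≤ x (n + 1); linarith only [h1, h2, hε, hε'], by show x (n + 1) ≤ 7; linarith only [h1, h2, hε, hε']⟩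
      · exact abs_le.2 ⟨by show -7 ≤ x (n + 2); linarith only [h1, h2, hε, hε', v1, v2], by show x (n + 2) ≤ 7; linarith only [h1, h2, hε, hε', v1, v2]⟩
      · exact abs_le.2 ⟨by show -7 ≤ x (n + 3); linarith only [h1, h2, hε, hε', a3, b3], by show x (n + 3) ≤ 7; linarith only [h1, h2, hε, hε', a3, b3]⟩
      · exact abs_le.2 ⟨by show -7 ≤ x (n + 4); linarith only [h1, h2, hε, hε', a4, b4], by show x (n + 4) ≤ 7; linarith only [h1, h2, hε, hε', a4, b4]⟩
      · exact abs_le.2 ⟨by show -7 ≤ x (n + 5); linarith only [h1, h2, hε, hε', a5, b5], by show x (n + 5) ≤ 7; linarith only [h1, h2, hε, hε', a5, b5]⟩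
      · exact abs_le.2 ⟨by show -7 ≤ x (n + 6); linarith only [h1, h2, hε, hε', a6, b6], by show x (n + 6) ≤ 7; linarith only [h1, h2, hε, hε', a6, b6]⟩
      · exact abs_le.2 ⟨by show -7 ≤ x (n + 7); linarith only [h1, h2, hε, hε', a7, b7], by show x (n + 7) ≤ 7; linarith only [h1, h2, hε, hε', a7, b7]⟩
      · exact abs_le.2 ⟨by show -7 ≤ x (n + 8); linarith only [h1, h2, hε, hε', a8, b8], by show x (n + 8) ≤ 7; linarith only [h1, h2, hε, hε', a8, b8]⟩
      · exact abs_le.2 ⟨by show -7 ≤ x (n + 9); linarith only [h1, h2, hε, hε', a9, b9], by show x (n + 9) ≤ 7; linarith only [h1, h2, hε, hε', a9, b9]⟩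
      · exact abs_le.2 ⟨by show -7 ≤ x (n + 10); linarith only [h1, h2, hε, hε', a10, b10], by show x (n + 10) ≤ 7; linarith only [h1, h2, hε, hε', a10, b10]⟩
      · exact abs_le.2 ⟨by show -7 ≤ x (n + 11); linarith only [h1, h2, hε, hε', a11, b11], by show x (n + 11) ≤ 7; linarith only [h1, h2, hε, hε', a11, b11]⟩
      · exact abs_le.2 ⟨by show -7 ≤ x (n + 12); linarith only [h1, h2, hε, hε', a12, b12], by show x (n + 12) ≤ 7; linarith only [h1, h2, hε, hε', a12, b12]⟩
      · exact abs_le.2 ⟨by show -7 ≤ x (n + 13); linarith only [h1, h2, hε, hε', a13, b13], by show x (n + 13) ≤ 7; linarith only [h1, h2, hε, hε', a13, b13]⟩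
      · exact abs_le.2 ⟨by show -7 ≤ x (n + 14); linarith only [h1, h2, hε, hε', a14, b14], by show x (n + 14) ≤ 7; linarith only [h1, h2, hε, hε', a14, b14]⟩
      · exact abs_le.2 ⟨by show -7 ≤ x (n + 15); linarith only [h1, h2, hε, hε', a14, b14, c1, c2], by show x (n + 15) ≤ 7; linarith only [h1, h2, hε, hε', a14, b14, c1, c2]⟩
      · exact abs_le.2 ⟨by show -7 ≤ x (n + 16); linarith only [h1, h2, hε, hε', a14, b14, a16, b16], by show x (n + 16) ≤ 7; linarith only [h1, h2, hε, hε', a14, b14, a16, b16]⟩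
    · intro j hj hev
      rcases hev with rfl | rfl | rfl
      · exact abs_le.2 ⟨by show _ ≤ x (n + 1) + x (n + 2) - 63 / 10; linarith only [h1, h2, hε, hε', v1, v2], by show x (n + 1) + x (n + 2) - 63 / 10 ≤ _; linarith only [h1, h2, hε, hε', v1, v2]⟩
      · exact abs_le.2 ⟨by show _ ≤ x (n + 11) + x (n + 12) - 63 / 10; linarith only [h1, h2, hε, hε', a11, b11, a12, b12], by show x (n + 11) + x (n + 12) - 63 / 10 ≤ _; linarith only [h1, h2, hε, hε', a11, b11, a12, b12]⟩
      · exact abs_le.2 ⟨by show _ ≤ x (n + 14) + x (n + 15) - 63 / 10; linarith only [hε, hε', c1, c2], by show x (n + 14) + x (n + 15) - 63 / 10 ≤ _; linarith only [hε, hε', c1, c2]⟩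
    · intro j hj hev
      rw [show len false = 16 from rfl] at hj
      have hev' : ¬ (j = 0 ∨ j = 10 ∨ j = 13) := hev
      interval_cases j
      · simp at hev'
      · exact (by rw [abs_of_neg (by show x (n + 2) + x (n + 3) - 63 / 10 < 0; linarith only [h1, h2, hε, hε', v1, v2, a3, b3])]; show _ ≤ -(x (n + 2) + x (n + 3) - 63 / 10); linarith only [h1, h2, hε, hε', v1, v2, a3, b3])
      · exact (by rw [abs_of_neg (by show x (n + 3) + x (n + 4) - 63 / 10 < 0; linarith only [h1, h2, hε, hε', a3, b3, a4, b4])]; show _ ≤ -(x (n + 3) + x (n + 4) - 63 / 10); linarith only [h1, h2, hε, hε', a3, b3, a4, b4])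
      · exact (by rw [abs_of_pos (by show 0 < x (n + 4) + x (n + 5) - 63 / 10; linarith only [h1, h2, hε, hε', a4, b4, a5, b5])]; show _ ≤ x (n + 4) + x (n + 5) - 63 / 10; linarith only [h1, h2, hε, hε', a4, b4, a5, b5])
      · exact (by rw [abs_of_neg (by show x (n + 5) + x (n + 6) - 63 / 10 < 0; linarith only [h1, h2, hε, hε', a5, b5, a6, b6])]; show _ ≤ -(x (n + 5) + x (n + 6) - 63 / 10); linarith only [h1, h2, hε, hε', a5, b5, a6, b6])
      · exact (by rw [abs_of_neg (by show x (n + 6) + x (n + 7) - 63 / 10 < 0; linarith only [h1, h2, hε, hε', a6, b6, a7, b7])]; show _ ≤ -(x (n + 6) + x (n + 7) - 63 / 10); linarith only [h1, h2, hε, hε', a6, b6, a7, b7])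
      · exact (by rw [abs_of_pos (by show 0 < x (n + 7) + x (n + 8) - 63 / 10; linarith only [h1, h2, hε, hε', a7, b7, a8, b8])]; show _ ≤ x (n + 7) + x (n + 8) - 63 / 10; linarith only [h1, h2, hε, hε', a7, b7, a8, b8])
      · exact (by rw [abs_of_neg (by show x (n + 8) + x (n + 9) - 63 / 10 < 0; linarith only [h1, h2, hε, hε', a8, b8, a9, b9])]; show _ ≤ -(x (n + 8) + x (n + 9) - 63 / 10); linarith only [h1, h2, hε, hε', a8, b8, a9, b9])
      · exact (by rw [abs_of_neg (by show x (n + 9) + x (n + 10) - 63 / 10 < 0; linarith only [h1, h2, hε, hε', a9, b9, a10, b10])]; show _ ≤ -(x (n + 9) + x (n + 10) - 63 / 10); linarith only [h1, h2, hε, hε', a9, b9, a10, b10])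
      · exact (by rw [abs_of_neg (by show x (n + 10) + x (n + 11) - 63 / 10 < 0; linarith only [h1, h2, hε, hε', a10, b10, a11, b11])]; show _ ≤ -(x (n + 10) + x (n + 11) - 63 / 10); linarith only [h1, h2, hε, hε', a10, b10, a11, b11])
      · simp at hev'
      · exact (by rw [abs_of_neg (by show x (n + 12) + x (n + 13) - 63 / 10 < 0; linarith only [h1, h2, hε, hε', a12, b12, a13, b13])]; show _ ≤ -(x (n + 12) + x (n + 13) - 63 / 10); linarith only [h1, h2, hε, hε', a12, b12, a13, b13])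
      · exact (by rw [abs_of_neg (by show x (n + 13) + x (n + 14) - 63 / 10 < 0; linarith only [h1, h2, hε, hε', a13, b13, a14, b14])]; show _ ≤ -(x (n + 13) + x (n + 14) - 63 / 10); linarith only [h1, h2, hε, hε', a13, b13, a14, b14])
      · simp at hev'
      · exact (by rw [abs_of_neg (by show x (n + 15) + x (n + 16) - 63 / 10 < 0; linarith only [h1, h2, hε, hε', a14, b14, c1, c2, a16, b16])]; show _ ≤ -(x (n + 15) + x (n + 16) - 63 / 10); linarith only [h1, h2, hε, hε', a14, b14, c1, c2, a16, b16])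
      · exact (by rw [abs_of_neg (by show x (n + 16) + x (n + 17) - 63 / 10 < 0; linarith only [h1, h2, hε, hε', a14, b14, a16, b16, a17, b17])]; show _ ≤ -(x (n + 16) + x (n + 17) - 63 / 10); linarith only [h1, h2, hε, hε', a14, b14, a16, b16, a17, b17])
  · simp only [lft, rgt] at h1 h2
    refine ⟨⟨?_, ?_, ?_⟩, ⟨?_, ?_⟩, ?_, ?_, ?_⟩
    · show -7 ≤ x (n + 13)
      linarith only [a13, b13, h1, h2, hε, hε']
    · show x (n + 13) ≤ 1
      linarith only [a13, b13, h1, h2, hε, hε']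
    · show |x (n + 14) + x (n + 15) - 63 / 10| ≤ ε
      exact abs_le.2 ⟨by linarith only [c1], by linarith only [c2]⟩
    · show 8 * x (n + 1) - 355 / 10 - 1 / 1000 ≤ x (n + 14)
      linarith only [a14, hε, hε']
    · show x (n + 14) ≤ 8 * x (n + 1) - 355 / 10 + 1 / 1000
      linarith only [b14, hε, hε']
    · intro j hj
      rw [show len true = 13 from rfl] at hj
      interval_cases j
      · exact abs_le.2 ⟨by show -7 ≤ x (n + 1); linarith only [h1, h2, hε, hε'], by show x (n + 1) ≤ 7; linarith only [h1, h2, hε, hε']⟩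
      · exact abs_le.2 ⟨by show -7 ≤ x (n + 2); linarith only [h1, h2, hε, hε', v1, v2], by show x (n + 2) ≤ 7; linarith only [h1, h2, hε, hε', v1, v2]⟩
      · exact abs_le.2 ⟨by show -7 ≤ x (n + 3); linarith only [h1, h2, hε, hε', a3, b3], by show x (n + 3) ≤ 7; linarith only [h1, h2, hε, hε', a3, b3]⟩
      · exact abs_le.2 ⟨by show -7 ≤ x (n + 4); linarith only [h1, h2, hε, hε', a4, b4], by show x (n + 4) ≤ 7; linarith only [h1, h2, hε, hε', a4, b4]⟩
      · exact abs_le.2 ⟨by show -7 ≤ x (n + 5); linarith only [h1, h2, hε, hε', a5, b5], by show x (n + 5) ≤ 7; linarith only [h1, h2, hε, hε', a5, b5]⟩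
      · exact abs_le.2 ⟨by show -7 ≤ x (n + 6); linarith only [h1, h2, hε, hε', a6, b6], by show x (n + 6) ≤ 7; linarith only [h1, h2, hε, hε', a6, b6]⟩
      · exact abs_le.2 ⟨by show -7 ≤ x (n + 7); linarith only [h1, h2, hε, hε', a7, b7], by show x (n + 7) ≤ 7; linarith only [h1, h2, hε, hε', a7, b7]⟩
      · exact abs_le.2 ⟨by show -7 ≤ x (n + 8); linarith only [h1, h2, hε, hε', a8, b8], by show x (n + 8) ≤ 7; linarith only [h1, h2, hε, hε', a8, b8]⟩
      · exact abs_le.2 ⟨by show -7 ≤ x (n + 9); linarith only [h1, h2, hε, hε', a9, b9], by show x (n + 9) ≤ 7; linarith only [h1, h2, hε, hε', a9, b9]⟩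
      · exact abs_le.2 ⟨by show -7 ≤ x (n + 10); linarith only [h1, h2, hε, hε', a10, b10], by show x (n + 10) ≤ 7; linarith only [h1, h2, hε, hε', a10, b10]⟩
      · exact abs_le.2 ⟨by show -7 ≤ x (n + 11); linarith only [h1, h2, hε, hε', a11, b11], by show x (n + 11) ≤ 7; linarith only [h1, h2, hε, hε', a11, b11]⟩
      · exact abs_le.2 ⟨by show -7 ≤ x (n + 12); linarith only [h1, h2, hε, hε', a12, b12], by show x (n + 12) ≤ 7; linarith only [h1, h2, hε, hε', a12, b12]⟩
      · exact abs_le.2 ⟨by show -7 ≤ x (n + 13); linarith only [h1, h2, hε, hε', a13, b13], by show x (n + 13) ≤ 7; linarith only [h1, h2, hε, hε', a13, b13]⟩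
    · intro j hj hev
      rcases hev with rfl | rfl
      · exact abs_le.2 ⟨by show _ ≤ x (n + 1) + x (n + 2) - 63 / 10; linarith only [h1, h2, hε, hε', v1, v2], by show x (n + 1) + x (n + 2) - 63 / 10 ≤ _; linarith only [h1, h2, hε, hε', v1, v2]⟩
      · exact abs_le.2 ⟨by show _ ≤ x (n + 11) + x (n + 12) - 63 / 10; linarith only [h1, h2, hε, hε', a11, b11, a12, b12], by show x (n + 11) + x (n + 12) - 63 / 10 ≤ _; linarith only [h1, h2, hε, hε', a11, b11, a12, b12]⟩
    · intro j hj hev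
      rw [show len true = 13 from rfl] at hj
      have hev' : ¬ (j = 0 ∨ j = 10) := hev
      interval_cases j
      · simp at hev'
      · exact (by rw [abs_of_neg (by show x (n + 2) + x (n + 3) - 63 / 10 < 0; linarith only [h1, h2, hε, hε', v1, v2, a3, b3])]; show _ ≤ -(x (n + 2) + x (n + 3) - 63 / 10); linarith only [h1, h2, hε, hε', v1, v2, a3, b3])
      · exact (by rw [abs_of_neg (by show x (n + 3) + x (n + 4) - 63 / 10 < 0; linarith only [h1, h2, hε, hε', a3, b3, a4, b4])]; show _ ≤ -(x (n + 3) + x (n + 4) - 63 / 10); linarith only [h1, h2, hε, hε', a3, b3, a4, b4])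
      · exact (by rw [abs_of_pos (by show 0 < x (n + 4) + x (n + 5) - 63 / 10; linarith only [h1, h2, hε, hε', a4, b4, a5, b5])]; show _ ≤ x (n + 4) + x (n + 5) - 63 / 10; linarith only [h1, h2, hε, hε', a4, b4, a5, b5])
      · exact (by rw [abs_of_neg (by show x (n + 5) + x (n + 6) - 63 / 10 < 0; linarith only [h1, h2, hε, hε', a5, b5, a6, b6])]; show _ ≤ -(x (n + 5) + x (n + 6) - 63 / 10); linarith only [h1, h2, hε, hε', a5, b5, a6, b6])
      · exact (by rw [abs_of_neg (by show x (n + 6) + x (n + 7) - 63 / 10 < 0; linarith only [h1, h2, hε, hε', a6, b6, a7, b7])]; show _ ≤ -(x (n + 6) + x (n + 7) - 63 / 10); linarith only [h1, h2, hε, hε', a6, b6, a7, b7])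
      · exact (by rw [abs_of_pos (by show 0 < x (n + 7) + x (n + 8) - 63 / 10; linarith only [h1, h2, hε, hε', a7, b7, a8, b8])]; show _ ≤ x (n + 7) + x (n + 8) - 63 / 10; linarith only [h1, h2, hε, hε', a7, b7, a8, b8])
      · exact (by rw [abs_of_neg (by show x (n + 8) + x (n + 9) - 63 / 10 < 0; linarith only [h1, h2, hε, hε', a8, b8, a9, b9])]; show _ ≤ -(x (n + 8) + x (n + 9) - 63 / 10); linarith only [h1, h2, hε, hε', a8, b8, a9, b9])
      · exact (by rw [abs_of_neg (by show x (n + 9) + x (n + 10) - 63 / 10 < 0; linarith only [h1, h2, hε, hε', a9, b9, a10, b10])]; show _ ≤ -(x (n + 9) + x (n + 10) - 63 / 10); linarith only [h1, h2, hε, hε', a9, b9, a10, b10])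
      · exact (by rw [abs_of_neg (by show x (n + 10) + x (n + 11) - 63 / 10 < 0; linarith only [h1, h2, hε, hε', a10, b10, a11, b11])]; show _ ≤ -(x (n + 10) + x (n + 11) - 63 / 10); linarith only [h1, h2, hε, hε', a10, b10, a11, b11])
      · simp at hev'
      · exact (by rw [abs_of_neg (by show x (n + 12) + x (n + 13) - 63 / 10 < 0; linarith only [h1, h2, hε, hε', a12, b12, a13, b13])]; show _ ≤ -(x (n + 12) + x (n + 13) - 63 / 10); linarith only [h1, h2, hε, hε', a12, b12, a13, b13])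
      · exact (by rw [abs_of_neg (by show x (n + 13) + x (n + 14) - 63 / 10 < 0; linarith only [h1, h2, hε, hε', a13, b13, a14, b14])]; show _ ≤ -(x (n + 13) + x (n + 14) - 63 / 10); linarith only [h1, h2, hε, hε', a13, b13, a14, b14])

end Pool.Agent.Q191.RS
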