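import Pool.Agent.Q191.RS.Step

/-!
# The two kinds of excursions
-/

set_option autoImplicit false
set_option linter.unusedVariables false

namespace Pool.Agent.Q191.RS

variable {b A ε : ℝ} (h : Par b A ε) {x : ℕ → ℝ} (hx : Orb b A x)

include h hx

/-- the long excursion -/
theorem moveP (hε : 0 ≤ ε) (hε' : ε ≤ 1 / 1000000) (n : ℕ)
    (hw : x n ≤ 1) (hv1 : 253 / 50 ≤ x (n + 1)) (hv2 : x (n + 1) ≤ 129 / 25)
    (hu1 : 63 / 10 - x (n + 1) - ε ≤ x (n + 2)) (hu2 : x (n + 2) ≤ 63 / 10 - x (n + 1) + ε) :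
    (-1 * x (n + 1) + 1 - 1 * ε ≤ x (n + 3) ∧ x (n + 3) ≤ -1 * x (n + 1) + 1 + 1 * ε) ∧
    (2 * x (n + 1) - 63 / 10 - 2 * ε ≤ x (n + 4) ∧ x (n + 4) ≤ 2 * x (n + 1) - 63 / 10 + 2 * ε) ∧
    (-3 * x (n + 1) + 179 / 10 - 4 * ε ≤ x (n + 5) ∧ x (n + 5) ≤ -3 * x (n + 1) + 179 / 10 + 4 * ε) ∧
    (-2 * x (n + 1) + 73 / 10 - 3 * ε ≤ x (n + 6) ∧ x (n + 6) ≤ -2 * x (n + 1) + 73 / 10 + 3 * ε) ∧
    (5 * x (n + 1) - 121 / 5 - 7 * ε ≤ x (n + 7) ∧ x (n + 7) ≤ 5 * x (n + 1) - 121 / 5 + 7 * ε) ∧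
    (-1 * x (n + 1) + 53 / 5 - 8 * ε ≤ x (n + 8) ∧ x (n + 8) ≤ -1 * x (n + 1) + 53 / 5 + 8 * ε) ∧
    (-5 * x (n + 1) + 126 / 5 - 8 * ε ≤ x (n + 9) ∧ x (n + 9) ≤ -5 * x (n + 1) + 126 / 5 + 8 * ε) ∧
    (6 * x (n + 1) - 174 / 5 - 16 * ε ≤ x (n + 10) ∧ x (n + 10) ≤ 6 * x (n + 1) - 174 / 5 + 16 * ε) ∧
    (4 * x (n + 1) - 73 / 5 - 17 * ε ≤ x (n + 11) ∧ x (n + 11) ≤ 4 * x (n + 1) - 73 / 5 + 17 * ε) ∧
    (-4 * x (n + 1) + 209 / 10 - 18 * ε ≤ x (n + 12) ∧ x (n + 12) ≤ -4 * x (n + 1) + 209 / 10 + 18 * ε) ∧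
    (-4 * x (n + 1) + 78 / 5 - 18 * ε ≤ x (n + 13) ∧ x (n + 13) ≤ -4 * x (n + 1) + 78 / 5 + 18 * ε) ∧
    (8 * x (n + 1) - 71 / 2 - 36 * ε ≤ x (n + 14) ∧ x (n + 14) ≤ 8 * x (n + 1) - 71 / 2 + 36 * ε) ∧
    (-8 * x (n + 1) + 209 / 5 - 37 * ε ≤ x (n + 15) ∧ x (n + 15) ≤ -8 * x (n + 1) + 209 / 5 + 37 * ε) ∧
    (63 / 10 - x (n + 14) - ε ≤ x (n + 15) ∧ x (n + 15) ≤ 63 / 10 - x (n + 14) + ε) := by
  obtain ⟨l3, u3⟩ := stp h 1 (x (n + 1)) (hx n)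
    (by linarith only [hv1, hv2, hε, hε', hw, hu1, hu2]) (by linarith only [hv1, hv2, hε, hε', hw, hu1, hu2]) (Or.inl le_rfl)
    (by linarith only [hv1, hv2, hε, hε', hw, hu1, hu2]) (by linarith only [hv1, hv2, hε, hε', hw, hu1, hu2]) (by linarith only [hv1, hv2, hε, hε', hw, hu1, hu2]) (Or.inr le_rfl)
  have a3 : -1 * x (n + 1) + 1 - 1 * ε ≤ x (n + 3) := by linarith only [hv1, hv2, hε, hε', hw, hu1, hu2, l3, u3]
  have b3 : x (n + 3) ≤ -1 * x (n + 1) + 1 + 1 * ε := by linarith only [hv1, hv2, hε, hε', hw, hu1, hu2, l3, u3]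
  obtain ⟨l4, u4⟩ := stp h (x (n + 1)) (x (n + 2)) (hx (n + 1))
    (by linarith only [hv1, hv2, hε, hε', hu1, hu2, a3, b3]) (by linarith only [hv1, hv2, hε, hε', hu1, hu2, a3, b3]) (Or.inr le_rfl)
    (by linarith only [hv1, hv2, hε, hε', hu1, hu2, a3, b3]) (by linarith only [hv1, hv2, hε, hε', hu1, hu2, a3, b3]) (by linarith only [hv1, hv2, hε, hε', hu1, hu2, a3, b3]) (Or.inr le_rfl)
  have a4 : 2 * x (n + 1) - 63 / 10 - 2 * ε ≤ x (n + 4) := by linarith only [hv1, hv2, hε, hε', hu1, hu2, a3, b3, l4, u4]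
  have b4 : x (n + 4) ≤ 2 * x (n + 1) - 63 / 10 + 2 * ε := by linarith only [hv1, hv2, hε, hε', hu1, hu2, a3, b3, l4, u4]
  obtain ⟨l5, u5⟩ := stp h (x (n + 2)) (x (n + 4) - 53 / 10) (hx (n + 2))
    (by linarith only [hv1, hv2, hε, hε', hu1, hu2, a3, b3, a4, b4]) (by linarith only [hv1, hv2, hε, hε', hu1, hu2, a3, b3, a4, b4]) (Or.inr le_rfl)
    (by linarith only [hv1, hv2, hε, hε', hu1, hu2, a3, b3, a4, b4]) (by linarith only [hv1, hv2, hε, hε', hu1, hu2, a3, b3, a4, b4]) (by linarith only [hv1, hv2, hε, hε', hu1, hu2, a3, b3, a4, b4]) (Or.inl le_rfl)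
  have a5 : -3 * x (n + 1) + 179 / 10 - 4 * ε ≤ x (n + 5) := by linarith only [hv1, hv2, hε, hε', hu1, hu2, a3, b3, a4, b4, l5, u5]
  have b5 : x (n + 5) ≤ -3 * x (n + 1) + 179 / 10 + 4 * ε := by linarith only [hv1, hv2, hε, hε', hu1, hu2, a3, b3, a4, b4, l5, u5]
  obtain ⟨l6, u6⟩ := stp h 1 (x (n + 4)) (hx (n + 3))
    (by linarith only [hv1, hv2, hε, hε', a3, b3, a4, b4, a5, b5]) (by linarith only [hv1, hv2, hε, hε', a3, b3, a4, b4, a5, b5]) (Or.inl le_rfl)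
    (by linarith only [hv1, hv2, hε, hε', a3, b3, a4, b4, a5, b5]) (by linarith only [hv1, hv2, hε, hε', a3, b3, a4, b4, a5, b5]) (by linarith only [hv1, hv2, hε, hε', a3, b3, a4, b4, a5, b5]) (Or.inr le_rfl)
  have a6 : -2 * x (n + 1) + 73 / 10 - 3 * ε ≤ x (n + 6) := by linarith only [hv1, hv2, hε, hε', a3, b3, a4, b4, a5, b5, l6, u6]
  have b6 : x (n + 6) ≤ -2 * x (n + 1) + 73 / 10 + 3 * ε := by linarith only [hv1, hv2, hε, hε', a3, b3, a4, b4, a5, b5, l6, u6]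
  obtain ⟨l7, u7⟩ := stp h (x (n + 4)) (x (n + 5)) (hx (n + 4))
    (by linarith only [hv1, hv2, hε, hε', a4, b4, a5, b5, a6, b6]) (by linarith only [hv1, hv2, hε, hε', a4, b4, a5, b5, a6, b6]) (Or.inr le_rfl)
    (by linarith only [hv1, hv2, hε, hε', a4, b4, a5, b5, a6, b6]) (by linarith only [hv1, hv2, hε, hε', a4, b4, a5, b5, a6, b6]) (by linarith only [hv1, hv2, hε, hε', a4, b4, a5, b5, a6, b6]) (Or.inr le_rfl)
  have a7 : 5 * x (n + 1) - 121 / 5 - 7 * ε ≤ x (n + 7) := by linarith only [hv1, hv2, hε, hε', a4, b4, a5, b5, a6, b6, l7, u7]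
  have b7 : x (n + 7) ≤ 5 * x (n + 1) - 121 / 5 + 7 * ε := by linarith only [hv1, hv2, hε, hε', a4, b4, a5, b5, a6, b6, l7, u7]
  obtain ⟨l8, u8⟩ := stp h (x (n + 5)) (x (n + 6)) (hx (n + 5))
    (by linarith only [hv1, hv2, hε, hε', a5, b5, a6, b6, a7, b7]) (by linarith only [hv1, hv2, hε, hε', a5, b5, a6, b6, a7, b7]) (Or.inr le_rfl)
    (by linarith only [hv1, hv2, hε, hε', a5, b5, a6, b6, a7, b7]) (by linarith only [hv1, hv2, hε, hε', a5, b5, a6, b6, a7, b7]) (by linarith only [hv1, hv2, hε, hε', a5, b5, a6, b6, a7, b7]) (Or.inr le_rfl)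
  have a8 : -1 * x (n + 1) + 53 / 5 - 8 * ε ≤ x (n + 8) := by linarith only [hv1, hv2, hε, hε', a5, b5, a6, b6, a7, b7, l8, u8]
  have b8 : x (n + 8) ≤ -1 * x (n + 1) + 53 / 5 + 8 * ε := by linarith only [hv1, hv2, hε, hε', a5, b5, a6, b6, a7, b7, l8, u8]
  obtain ⟨l9, u9⟩ := stp h 1 (x (n + 7)) (hx (n + 6))
    (by linarith only [hv1, hv2, hε, hε', a6, b6, a7, b7, a8, b8]) (by linarith only [hv1, hv2, hε, hε', a6, b6, a7, b7, a8, b8]) (Or.inl le_rfl)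
    (by linarith only [hv1, hv2, hε, hε', a6, b6, a7, b7, a8, b8]) (by linarith only [hv1, hv2, hε, hε', a6, b6, a7, b7, a8, b8]) (by linarith only [hv1, hv2, hε, hε', a6, b6, a7, b7, a8, b8]) (Or.inr le_rfl)
  have a9 : -5 * x (n + 1) + 126 / 5 - 8 * ε ≤ x (n + 9) := by linarith only [hv1, hv2, hε, hε', a6, b6, a7, b7, a8, b8, l9, u9]
  have b9 : x (n + 9) ≤ -5 * x (n + 1) + 126 / 5 + 8 * ε := by linarith only [hv1, hv2, hε, hε', a6, b6, a7, b7, a8, b8, l9, u9]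
  obtain ⟨l10, u10⟩ := stp h (x (n + 7)) (x (n + 8)) (hx (n + 7))
    (by linarith only [hv1, hv2, hε, hε', a7, b7, a8, b8, a9, b9]) (by linarith only [hv1, hv2, hε, hε', a7, b7, a8, b8, a9, b9]) (Or.inr le_rfl)
    (by linarith only [hv1, hv2, hε, hε', a7, b7, a8, b8, a9, b9]) (by linarith only [hv1, hv2, hε, hε', a7, b7, a8, b8, a9, b9]) (by linarith only [hv1, hv2, hε, hε', a7, b7, a8, b8, a9, b9]) (Or.inr le_rfl)
  have a10 : 6 * x (n + 1) - 174 / 5 - 16 * ε ≤ x (n + 10) := by linarith only [hv1, hv2, hε, hε', a7, b7, a8, b8, a9, b9, l10, u10]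
  have b10 : x (n + 10) ≤ 6 * x (n + 1) - 174 / 5 + 16 * ε := by linarith only [hv1, hv2, hε, hε', a7, b7, a8, b8, a9, b9, l10, u10]
  obtain ⟨l11, u11⟩ := stp h (x (n + 8)) (x (n + 9)) (hx (n + 8))
    (by linarith only [hv1, hv2, hε, hε', a8, b8, a9, b9, a10, b10]) (by linarith only [hv1, hv2, hε, hε', a8, b8, a9, b9, a10, b10]) (Or.inr le_rfl)
    (by linarith only [hv1, hv2, hε, hε', a8, b8, a9, b9, a10, b10]) (by linarith only [hv1, hv2, hε, hε', a8, b8, a9, b9, a10, b10]) (by linarith only [hv1, hv2, hε, hε', a8, b8, a9, b9, a10, b10]) (Or.inr le_rfl)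
  have a11 : 4 * x (n + 1) - 73 / 5 - 17 * ε ≤ x (n + 11) := by linarith only [hv1, hv2, hε, hε', a8, b8, a9, b9, a10, b10, l11, u11]
  have b11 : x (n + 11) ≤ 4 * x (n + 1) - 73 / 5 + 17 * ε := by linarith only [hv1, hv2, hε, hε', a8, b8, a9, b9, a10, b10, l11, u11]
  obtain ⟨l12, u12⟩ := stp h 1 (x (n + 11) - 53 / 10) (hx (n + 9))
    (by linarith only [hv1, hv2, hε, hε', a9, b9, a10, b10, a11, b11]) (by linarith only [hv1, hv2, hε, hε', a9, b9, a10, b10, a11, b11]) (Or.inl le_rfl)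
    (by linarith only [hv1, hv2, hε, hε', a9, b9, a10, b10, a11, b11]) (by linarith only [hv1, hv2, hε, hε', a9, b9, a10, b10, a11, b11]) (by linarith only [hv1, hv2, hε, hε', a9, b9, a10, b10, a11, b11]) (Or.inl le_rfl)
  have a12 : -4 * x (n + 1) + 209 / 10 - 18 * ε ≤ x (n + 12) := by linarith only [hv1, hv2, hε, hε', a9, b9, a10, b10, a11, b11, l12, u12]
  have b12 : x (n + 12) ≤ -4 * x (n + 1) + 209 / 10 + 18 * ε := by linarith only [hv1, hv2, hε, hε', a9, b9, a10, b10, a11, b11, l12, u12]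
  obtain ⟨l13, u13⟩ := stp h 1 (x (n + 11)) (hx (n + 10))
    (by linarith only [hv1, hv2, hε, hε', a10, b10, a11, b11, a12, b12]) (by linarith only [hv1, hv2, hε, hε', a10, b10, a11, b11, a12, b12]) (Or.inl le_rfl)
    (by linarith only [hv1, hv2, hε, hε', a10, b10, a11, b11, a12, b12]) (by linarith only [hv1, hv2, hε, hε', a10, b10, a11, b11, a12, b12]) (by linarith only [hv1, hv2, hε, hε', a10, b10, a11, b11, a12, b12]) (Or.inr le_rfl)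
  have a13 : -4 * x (n + 1) + 78 / 5 - 18 * ε ≤ x (n + 13) := by linarith only [hv1, hv2, hε, hε', a10, b10, a11, b11, a12, b12, l13, u13]
  have b13 : x (n + 13) ≤ -4 * x (n + 1) + 78 / 5 + 18 * ε := by linarith only [hv1, hv2, hε, hε', a10, b10, a11, b11, a12, b12, l13, u13]
  obtain ⟨l14, u14⟩ := stp h (x (n + 11)) (x (n + 12)) (hx (n + 11))
    (by linarith only [hv1, hv2, hε, hε', a11, b11, a12, b12, a13, b13]) (by linarith only [hv1, hv2, hε, hε', a11, b11, a12, b12, a13, b13]) (Or.inr le_rfl)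
    (by linarith only [hv1, hv2, hε, hε', a11, b11, a12, b12, a13, b13]) (by linarith only [hv1, hv2, hε, hε', a11, b11, a12, b12, a13, b13]) (by linarith only [hv1, hv2, hε, hε', a11, b11, a12, b12, a13, b13]) (Or.inr le_rfl)
  have a14 : 8 * x (n + 1) - 71 / 2 - 36 * ε ≤ x (n + 14) := by linarith only [hv1, hv2, hε, hε', a11, b11, a12, b12, a13, b13, l14, u14]
  have b14 : x (n + 14) ≤ 8 * x (n + 1) - 71 / 2 + 36 * ε := by linarith only [hv1, hv2, hε, hε', a11, b11, a12, b12, a13, b13, l14, u14]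
  obtain ⟨l15, u15⟩ := stp h 1 (x (n + 14) - 53 / 10) (hx (n + 12))
    (by linarith only [hv1, hv2, hε, hε', a12, b12, a13, b13, a14, b14]) (by linarith only [hv1, hv2, hε, hε', a12, b12, a13, b13, a14, b14]) (Or.inl le_rfl)
    (by linarith only [hv1, hv2, hε, hε', a12, b12, a13, b13, a14, b14]) (by linarith only [hv1, hv2, hε, hε', a12, b12, a13, b13, a14, b14]) (by linarith only [hv1, hv2, hε, hε', a12, b12, a13, b13, a14, b14]) (Or.inl le_rfl)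
  have a15 : -8 * x (n + 1) + 209 / 5 - 37 * ε ≤ x (n + 15) := by linarith only [hv1, hv2, hε, hε', a12, b12, a13, b13, a14, b14, l15, u15]
  have b15 : x (n + 15) ≤ -8 * x (n + 1) + 209 / 5 + 37 * ε := by linarith only [hv1, hv2, hε, hε', a12, b12, a13, b13, a14, b14, l15, u15]
  have c1 : 63 / 10 - x (n + 14) - ε ≤ x (n + 15) := by linarith only [l15]
  have c2 : x (n + 15) ≤ 63 / 10 - x (n + 14) + ε := by linarith only [u15]
  exact ⟨⟨a3, b3⟩, ⟨a4, b4⟩, ⟨a5, b5⟩, ⟨a6, b6⟩, ⟨a7, b7⟩, ⟨a8, b8⟩, ⟨a9, b9⟩, ⟨a10, b10⟩, ⟨a11, b11⟩, ⟨a12, b12⟩, ⟨a13, b13⟩, ⟨a14, b14⟩, ⟨a15, b15⟩, ⟨c1, c2⟩⟩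

/-- the short excursion -/
theorem moveQ (hε : 0 ≤ ε) (hε' : ε ≤ 1 / 1000000) (n : ℕ)
    (hw : x n ≤ 1) (hv1 : 567 / 100 ≤ x (n + 1)) (hv2 : x (n + 1) ≤ 23 / 4)
    (hu1 : 63 / 10 - x (n + 1) - ε ≤ x (n + 2)) (hu2 : x (n + 2) ≤ 63 / 10 - x (n + 1) + ε) :
    (-1 * x (n + 1) + 1 - 1 * ε ≤ x (n + 3) ∧ x (n + 3) ≤ -1 * x (n + 1) + 1 + 1 * ε) ∧
    (2 * x (n + 1) - 63 / 10 - 2 * ε ≤ x (n + 4) ∧ x (n + 4) ≤ 2 * x (n + 1) - 63 / 10 + 2 * ε) ∧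
    (-2 * x (n + 1) + 63 / 5 - 3 * ε ≤ x (n + 5) ∧ x (n + 5) ≤ -2 * x (n + 1) + 63 / 5 + 3 * ε) ∧
    (63 / 10 - x (n + 4) - ε ≤ x (n + 5) ∧ x (n + 5) ≤ 63 / 10 - x (n + 4) + ε) := by
  obtain ⟨l3, u3⟩ := stp h 1 (x (n + 1)) (hx n)
    (by linarith only [hv1, hv2, hε, hε', hw, hu1, hu2]) (by linarith only [hv1, hv2, hε, hε', hw, hu1, hu2]) (Or.inl le_rfl)
    (by linarith only [hv1, hv2, hε, hε', hw, hu1, hu2]) (by linarith only [hv1, hv2, hε, hε', hw, hu1, hu2]) (by linarith only [hv1, hv2, hε, hε', hw, hu1, hu2]) (Or.inr le_rfl)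
  have a3 : -1 * x (n + 1) + 1 - 1 * ε ≤ x (n + 3) := by linarith only [hv1, hv2, hε, hε', hw, hu1, hu2, l3, u3]
  have b3 : x (n + 3) ≤ -1 * x (n + 1) + 1 + 1 * ε := by linarith only [hv1, hv2, hε, hε', hw, hu1, hu2, l3, u3]
  obtain ⟨l4, u4⟩ := stp h (x (n + 1)) (x (n + 2)) (hx (n + 1))
    (by linarith only [hv1, hv2, hε, hε', hu1, hu2, a3, b3]) (by linarith only [hv1, hv2, hε, hε', hu1, hu2, a3, b3]) (Or.inr le_rfl)
    (by linarith only [hv1, hv2, hε, hε', hu1, hu2, a3, b3]) (by linarith only [hv1, hv2, hε, hε', hu1, hu2, a3, b3]) (by linarith only [hv1, hv2, hε, hε', hu1, hu2, a3, b3]) (Or.inr le_rfl)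
  have a4 : 2 * x (n + 1) - 63 / 10 - 2 * ε ≤ x (n + 4) := by linarith only [hv1, hv2, hε, hε', hu1, hu2, a3, b3, l4, u4]
  have b4 : x (n + 4) ≤ 2 * x (n + 1) - 63 / 10 + 2 * ε := by linarith only [hv1, hv2, hε, hε', hu1, hu2, a3, b3, l4, u4]
  obtain ⟨l5, u5⟩ := stp h 1 (x (n + 4) - 53 / 10) (hx (n + 2))
    (by linarith only [hv1, hv2, hε, hε', hu1, hu2, a3, b3, a4, b4]) (by linarith only [hv1, hv2, hε, hε', hu1, hu2, a3, b3, a4, b4]) (Or.inl le_rfl)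
    (by linarith only [hv1, hv2, hε, hε', hu1, hu2, a3, b3, a4, b4]) (by linarith only [hv1, hv2, hε, hε', hu1, hu2, a3, b3, a4, b4]) (by linarith only [hv1, hv2, hε, hε', hu1, hu2, a3, b3, a4, b4]) (Or.inl le_rfl)
  have a5 : -2 * x (n + 1) + 63 / 5 - 3 * ε ≤ x (n + 5) := by linarith only [hv1, hv2, hε, hε', hu1, hu2, a3, b3, a4, b4, l5, u5]
  have b5 : x (n + 5) ≤ -2 * x (n + 1) + 63 / 5 + 3 * ε := by linarith only [hv1, hv2, hε, hε', hu1, hu2, a3, b3, a4, b4, l5, u5]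
  have c1 : 63 / 10 - x (n + 4) - ε ≤ x (n + 5) := by linarith only [l5]
  have c2 : x (n + 5) ≤ 63 / 10 - x (n + 4) + ε := by linarith only [u5]
  exact ⟨⟨a3, b3⟩, ⟨a4, b4⟩, ⟨a5, b5⟩, ⟨c1, c2⟩⟩

end Pool.Agent.Q191.RS
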