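import Pool.Agent.Q191.RS.Block
import Pool.Agent.Q191.RR.Abs

/-!
# The bounded non-convergent solution
-/

set_option autoImplicit false
set_option linter.unusedVariables false

open Set Filter Topology

namespace Pool.Agent.Q191.RS

open Pool.Agent.Q191.RR (tim wd tim_find nonper exists_word exp_nonper)

/-- the orbit with initial section value `s` -/
noncomputable def z (b A s : ℝ) : ℕ → ℝ
  | 0 => -2
  | 1 => s
  | 2 => 63 / 10 - s
  | (n + 3) => G b A (z b A s (n + 2)) (z b A s (n + 1)) (z b A s n)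

theorem z_orb (b A s : ℝ) : Orb b A (z b A s) := fun n => by
  rw [z]

theorem z_cont {b A ε : ℝ} (h : Par b A ε) (n : ℕ) : Continuous (fun s => z b A s n) := by
  induction n using Nat.strong_induction_on with
  | _ n ih =>
    match n, ih with
    | 0, _ => simp only [z]; exact continuous_const
    | 1, _ => simp only [z]; exact continuous_id
    | 2, _ => simp only [z]; fun_prop
    | (k + 3), ih =>
      have e : (fun s => z b A s (k + 3)) =
          (fun p : ℝ × ℝ × ℝ => G b A p.1 p.2.1 p.2.2) ∘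
            (fun s => (z b A s (k + 2), z b A s (k + 1), z b A s k)) := by
        funext s
        show z b A s (k + 3) = _
        rw [z]
        rfl
      rw [e]
      exact (G_cont h).comp ((ih (k + 2) (by omega)).prodMk
        ((ih (k + 1) (by omega)).prodMk (ih k (by omega))))

theorem lft_le_rgt (i : Bool) : lft i ≤ rgt i := by
  cases i <;> simp only [lft, rgt] <;> norm_num

theorem cross_l (i j : Bool) : slo i * lft i - cst i + 1 / 1000 ≤ lft j := by
  cases i <;> cases j <;> simp only [lft, cst, slo] <;> norm_num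

theorem cross_r (i j : Bool) : rgt j ≤ slo i * rgt i - cst i - 1 / 1000 := by
  cases i <;> cases j <;> simp only [rgt, cst, slo] <;> norm_num

/-- the orbit in logarithmic coordinates -/
theorem exists_log {b A ε : ℝ} (h : Par b A ε) (hε : 0 ≤ ε) (hε' : ε ≤ 1 / 1000000) :
    ∃ x : ℕ → ℝ, Orb b A x ∧ (∀ n, |x n| ≤ 7) ∧
      ∀ k, 1 ≤ k → ¬ Tendsto (fun n => x (n + k) - x n) atTop (𝓝 0) := by
  have hB : ∀ s n i, Sec ε (z b A s) n → lft i ≤ z b A s (n + 1) → z b A s (n + 1) ≤ rgt i → _ :=
    fun s n i => block h (z_orb b A s) hε hε' n i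
  obtain ⟨s, hs⟩ := exists_word (Z := z b A) (S := fun s n => Sec ε (z b A s) n) (len := len)
    (lft := lft) (rgt := rgt) (z_cont h) lft_le_rgt
    (fun s _ _ => ⟨by simp only [z]; norm_num, by simp only [z]; norm_num, by
      show |z b A s 1 + z b A s 2 - 63 / 10| ≤ ε
      simp only [z]
      have : s + (63 / 10 - s) - 63 / 10 = (0 : ℝ) := by ring
      rw [this, abs_zero]
      exact hε⟩)
    (fun s => by simp only [z])
    (fun s n i hS h1 h2 => (hB s n i hS h1 h2).1)
    (fun s n i j hS h1 => by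
      have := (hB s n i hS h1.ge (h1.le.trans (lft_le_rgt i))).2.1.2
      rw [h1] at this
      exact this.trans (cross_l i j))
    (fun s n i j hS h1 => by
      have := (hB s n i hS ((lft_le_rgt i).trans h1.ge) h1.le).2.1.1
      rw [h1] at this
      exact (cross_r i j).trans this)
  have hb : ∀ m, _ := fun m => hB s (tim len wd m) (wd m) (hs m).1 (hs m).2.1 (hs m).2.2
  have hpos : ∀ i, 0 < len i := fun i => by cases i <;> decide
  refine ⟨z b A s, z_orb b A s, ?_, ?_⟩
  · intro n
    match n with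
    | 0 => simp only [z]; norm_num
    | (k + 1) =>
      obtain ⟨m, j, hj, hm⟩ := tim_find (len := len) hpos wd k
      have := (hb m).2.2.1 j hj
      rw [show k + 1 = tim len wd m + 1 + j by omega]
      exact this
  · intro k hk ht
    refine nonper (x := fun n => z b A s n + z b A s (n + 1) - 63 / 10) (len := len) (ev := ev)
      (d := 3) (s := 1) (fun i => by cases i <;> decide)
      rfl (fun m => (hb m).2.2.2.1) (fun m => (hb m).2.2.2.2) ?_ ?_ k hk ?_
    · intro i
      cases i
      · exact Or.inl rfl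
      · exact Or.inl rfl
    · intro i hi
      cases i
      · have hi' : 3 = 0 ∨ 3 = 10 ∨ 3 = 13 := hi
        omega
      · have hi' : 3 = 0 ∨ 3 = 10 := hi
        omega
    · have h2 := ht.add (ht.comp (tendsto_add_atTop_nat 1))
      rw [add_zero] at h2
      refine h2.congr fun n => ?_
      simp only [Function.comp]
      rw [show n + 1 + k = n + k + 1 by ring]
      ring

/-- For every real `t ≥ 10 ^ 6` and `0 ≤ A ≤ 4 ^ (-10 t)`, with `α = 4 ^ t` and
`B = 4 ^ (-53 t / 10)`. -/
theorem final {t A : ℝ} (ht : 1000000 ≤ t) (hA : 0 ≤ A) (hA' : A ≤ (4 : ℝ) ^ (-(10 * t))) :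
    ∃ x : ℕ → ℝ, (∀ n, 0 < x n) ∧
      (∀ n, x (n + 3) = ((4 : ℝ) ^ t + x n) /
        (A + (4 : ℝ) ^ (-(53 * t / 10)) * x (n + 2) + x (n + 1))) ∧
      (∃ M, ∀ n, x n ≤ M) ∧
      (∀ L : ℝ, ¬ Tendsto x atTop (𝓝 L)) ∧
      ∀ p : ℕ → ℝ, (∃ k, 1 ≤ k ∧ ∀ n, p (n + k) = p n) →
        ¬ Tendsto (fun n => x n - p n) atTop (𝓝 0) := by
  have h4 : 0 < Real.log 4 := Real.log_pos (by norm_num)
  have ht0 : 0 < t := by linarith
  have e : (4 : ℝ) ^ (-(10 * t)) = Real.exp (-(10 * (t * Real.log 4))) := by
    rw [Real.rpow_def_of_pos (by norm_num)]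
    congr 1
    ring
  have hpar : Par (t * Real.log 4) A (1 / t) := by
    refine ⟨by positivity, hA, e ▸ hA', ?_⟩
    field_simp
  have hε : (0 : ℝ) ≤ 1 / t := by positivity
  have hε' : 1 / t ≤ 1 / 1000000 := one_div_le_one_div_of_le (by norm_num) ht
  obtain ⟨x, hx, hx7, hnp⟩ := exists_log hpar hε hε'
  have hb := hpar.b_pos
  have hfin := exp_nonper hb hx7 hnp
  set b := t * Real.log 4 with hbdef
  refine ⟨fun n => Real.exp (b * x n), fun n => Real.exp_pos _, ?_, ?_, ?_, hfin⟩
  · intro n
    show Real.exp (b * x (n + 3)) = _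
    have e1 : (4 : ℝ) ^ t = Real.exp b := by
      rw [Real.rpow_def_of_pos (by norm_num), hbdef]
      congr 1
      ring
    have e2 : (4 : ℝ) ^ (-(53 * t / 10)) = Real.exp (-(b * (53 / 10))) := by
      rw [Real.rpow_def_of_pos (by norm_num), hbdef]
      congr 1
      ring
    have e3 : Real.exp (b * (x (n + 2) - 53 / 10)) =
        Real.exp (-(b * (53 / 10))) * Real.exp (b * x (n + 2)) := by
      rw [← Real.exp_add]
      congr 1
      ring
    rw [hx n, G, mul_div_cancel₀ _ hb.ne', Real.exp_sub, Real.exp_log (num_pos _ _),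
      Real.exp_log (den_pos hpar _ _), e1, e2, e3]
  · refine ⟨Real.exp (b * 7), fun n => Real.exp_le_exp.2 ?_⟩
    have := (abs_le.1 (hx7 n)).2
    gcongr
  · intro L hL
    apply hfin (fun _ => L) ⟨1, le_rfl, fun n => rfl⟩
    have := hL.sub_const L
    rwa [sub_self] at this

end Pool.Agent.Q191.RS
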