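import Mathlib

/-!
# The recurrence `x' = (α + w) / (A + B u + v)` in logarithmic coordinates

In the coordinates `x = exp (b * ξ)` the map with `α = exp b`, `B = exp (-53 b / 10)` and tiny `A`
is within `ε` of the tropical map `max 1 w - max (-10) (u - 53/10) v`.
-/

set_option autoImplicit false
set_option linter.unusedVariables false

namespace Pool.Agent.Q191.RS

open Real

/-- the map in logarithmic coordinates -/
noncomputable def G (b A u v w : ℝ) : ℝ :=
  (log (exp b + exp (b * w)) - log (A + exp (b * (u - 53 / 10)) + exp (b * v))) / b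

/-- admissible parameters -/
structure Par (b A ε : ℝ) : Prop where
  b_pos : 0 < b
  A_nonneg : 0 ≤ A
  A_le : A ≤ exp (-(10 * b))
  eps : log 4 = ε * b

variable {b A ε : ℝ} (h : Par b A ε)

omit h in
theorem num_pos (b w : ℝ) : 0 < exp b + exp (b * w) := by positivity

include h

theorem den_pos (u v : ℝ) : 0 < A + exp (b * (u - 53 / 10)) + exp (b * v) := by
  have := h.A_nonneg
  positivity

/-- two-sided bound for one step -/
theorem stp {w v u y : ℝ} (P Q : ℝ) (hy : y = G b A u v w) (hP1 : 1 ≤ P) (hPw : w ≤ P)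
    (hP : P ≤ 1 ∨ P ≤ w) (hQ0 : -10 ≤ Q) (hQu : u - 53 / 10 ≤ Q) (hQv : v ≤ Q)
    (hQ : Q ≤ u - 53 / 10 ∨ Q ≤ v) : P - Q - ε ≤ y ∧ y ≤ P - Q + ε := by
  have hb := h.b_pos
  have hA := h.A_nonneg
  have e4 := h.eps
  -- numerator
  have n1 : log (exp b + exp (b * w)) ≤ log 4 + b * P := by
    have e1 : log 4 + b * P = log (4 * exp (b * P)) := by
      rw [log_mul (by norm_num) (exp_pos _).ne', log_exp]
    rw [e1]
    apply log_le_log (num_pos b w)
    have h1 : exp b ≤ exp (b * P) := exp_le_exp.2 (by nlinarith)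
    have h2 : exp (b * w) ≤ exp (b * P) := exp_le_exp.2 (by gcongr)
    have h3 := exp_pos (b * P)
    linarith
  have n2 : b * P ≤ log (exp b + exp (b * w)) := by
    rw [le_log_iff_exp_le (num_pos b w)]
    have h1 := exp_pos b
    have h2 := exp_pos (b * w)
    rcases hP with hP | hP
    · have : exp (b * P) ≤ exp b := exp_le_exp.2 (by nlinarith)
      linarith
    · have : exp (b * P) ≤ exp (b * w) := exp_le_exp.2 (by gcongr)
      linarith
  -- denominator
  have d1 : log (A + exp (b * (u - 53 / 10)) + exp (b * v)) ≤ log 4 + b * Q := by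
    have e1 : log 4 + b * Q = log (4 * exp (b * Q)) := by
      rw [log_mul (by norm_num) (exp_pos _).ne', log_exp]
    rw [e1]
    apply log_le_log (den_pos h u v)
    have h1 : A ≤ exp (b * Q) := h.A_le.trans (exp_le_exp.2 (by nlinarith))
    have h2 : exp (b * (u - 53 / 10)) ≤ exp (b * Q) := exp_le_exp.2 (by gcongr)
    have h3 : exp (b * v) ≤ exp (b * Q) := exp_le_exp.2 (by gcongr)
    have h4 := exp_pos (b * Q)
    linarith
  have d2 : b * Q ≤ log (A + exp (b * (u - 53 / 10)) + exp (b * v)) := by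
    rw [le_log_iff_exp_le (den_pos h u v)]
    have h1 := exp_pos (b * (u - 53 / 10))
    have h2 := exp_pos (b * v)
    rcases hQ with hQ | hQ
    · have : exp (b * Q) ≤ exp (b * (u - 53 / 10)) := exp_le_exp.2 (by gcongr)
      linarith
    · have : exp (b * Q) ≤ exp (b * v) := exp_le_exp.2 (by gcongr)
      linarith
  rw [hy]
  unfold G
  constructor
  · rw [le_div_iff₀ hb]
    linarith [mul_comm b P, mul_comm b Q]
  · rw [div_le_iff₀ hb]
    linarith [mul_comm b P, mul_comm b Q]

omit h in
/-- continuity -/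
theorem G_cont (h : Par b A ε) : Continuous (fun p : ℝ × ℝ × ℝ => G b A p.1 p.2.1 p.2.2) := by
  unfold G
  refine Continuous.div_const (Continuous.sub (Continuous.log ?_ ?_) (Continuous.log ?_ ?_)) _
  · fun_prop
  · intro p
    exact (num_pos b _).ne'
  · fun_prop
  · intro p
    exact (den_pos h _ _).ne'

/-- orbits -/
def Orb (b A : ℝ) (x : ℕ → ℝ) : Prop := ∀ n, x (n + 3) = G b A (x (n + 2)) (x (n + 1)) (x n)

end Pool.Agent.Q191.RS
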